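import Pool.Agent.Q270.EG.TwoZ
import Pool.Agent.Q270.EC.Two
import Pool.Agent.Q133.ELMain

/-!
# Signs of the Liouville function are independent of the residues modulo many primes

For a finite set `Q` of primes and sets `R_q` of residues modulo the `q ∈ Q` let `hits(n)` be the set of all pairs
`(q, r)`, `q ∈ Q`, `r ∈ R_q`, with `n ≡ r (mod q)`. For a finite set `T` of shifts, `Adm T z N κ L Q R` says that the
primes in `Q` satisfy `z < q ≤ N^{1/z}` and `∑_{q ∈ Q} 1/q ≤ L`, and that `R_q` has at most `κ` elements `r`, none of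
them `≡ -t (mod q)`, `t ∈ T`. `LogProp X B` is the proportion, with the weights `1/N`, of the scales `N ≤ X` with the
property `B`; `mean N φ` is the mean value of `φ` on `[1, N]`. We say that a property holds at almost all scales,
uniformly in the hits, if for given `κ, L` and `ε > 0` there is `z` such that for large `X` all scales `N ≤ X` but a
logarithmic proportion `ε` have it for ALL `Q`, `R_q` with `Adm T z N κ L Q R` and ALL functions `|Φ| ≤ 1`. In this sense: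

1. `|mean_n Φ(hits(n), (λ(n + t))_{t ∈ T}) - mean_m mean_n Φ(hits(m), (λ(n + t))_{t ∈ T})| ≤ ε`:
   the sign patterns and the hits are independent in total variation.
2. `|mean_n Φ(hits(n)) λ(n + b) g(n + b')| ≤ ε` for `b ≠ b'` and all multiplicative `|g| ≤ 1`; in particular `k = 2` of
   the problem, along all such sifted sets.
3. `|mean_n Φ(hits(n)) λ(n) ⋯ λ(n + k - 1)| ≤ (1/2) |mean_n Φ(hits(n))| + ε` for every `k ≥ 1`.
4. For every `k ≥ 1`, the statement `S_k(x) = o(x)` of the problem holds at almost all scales if and only if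
   `|mean_n Φ(hits(n)) λ(n) ⋯ λ(n + k - 1)| ≤ ε` at almost all scales, uniformly in the hits.
-/

set_option autoImplicit false

namespace Pool.Agent.Results.MP_a14ce1_nt.AllSiftedSets

open Finset Filter Pool.Agent.Q270.EA Pool.Agent.Q270.EB Pool.Agent.Q270.EC Pool.Agent.Q270.EG

open Classical in
/-- the proportion, with the weights `1 / N`, of the scales `N ≤ X` with the property `B` -/
noncomputable def LogProp (X : ℕ) (B : ℕ → Prop) : ℝ :=
  (∑ N ∈ Icc 1 X, if B N then 1 / (N : ℝ) else 0) / ∑ N ∈ Icc 1 X, 1 / (N : ℝ)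

/-- multiplicative with values in the unit disk -/
def Mul1 (f : ArithmeticFunction ℂ) : Prop := f.IsMultiplicative ∧ ∀ n, ‖f n‖ ≤ 1

/-- the mean value on `[1, N]` -/
noncomputable def mean (N : ℕ) (φ : ℕ → ℂ) : ℂ := (∑ n ∈ Icc 1 N, φ n) / N

/-- the pairs `(q, r)`, `q ∈ Q`, `r ∈ R q`, with `n ≡ r (mod q)` -/
def hits (Q : Finset ℕ) (R : ℕ → Finset ℕ) (n : ℕ) : Finset (ℕ × ℕ) :=
  (Q.biUnion (fun q => (R q).image (fun r => (q, r)))).filter (fun x => n % x.1 = x.2)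

/-- the primes `q ∈ Q` are in `(z, N^{1/z}]`, `∑ 1/q ≤ L`; at most `κ` residues `r ∈ R q`, `q ∤ r + t` for `t ∈ T` -/
def Adm (T : Finset ℕ) (z N κ : ℕ) (L : ℝ) (Q : Finset ℕ) (R : ℕ → Finset ℕ) : Prop :=
  (∀ q ∈ Q, q.Prime ∧ z < q ∧ q ^ z ≤ N ∧ (R q).card ≤ κ ∧ ∀ r ∈ R q, r < q ∧ ∀ t ∈ T, ¬ q ∣ r + t) ∧
    ∑ q ∈ Q, 1 / (q : ℝ) ≤ L

/-- the Liouville function -/
def liouville (n : ℕ) : ℤ := (-1) ^ ArithmeticFunction.cardFactors n

/-- the product of `k` consecutive values -/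
noncomputable def term (k n : ℕ) : ℂ := ∏ j ∈ range k, ((liouville (n + j) : ℤ) : ℂ)

lemma bm {f : ArithmeticFunction ℂ} (hf : Mul1 f) : BM f :=
  ⟨hf.2, hf.1.map_one, fun _ _ h => hf.1.map_mul_of_coprime h⟩

lemma mean_eq (N : ℕ) (φ : ℕ → ℂ) : mean N φ = AvN N φ := by
  unfold mean AvN
  rw [one_div_mul_eq_div]

lemma LogProp_eq (X : ℕ) (B : ℕ → Prop) : LogProp X B = LM X B := rfl

lemma li_lam (n : ℕ) : ((liouville n : ℤ) : ℂ) = lam n := by
  unfold liouville lam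
  push_cast
  rfl

/-- the admissible residues -/
lemma adm_conv {z N κ : ℕ} {T : Finset ℕ} {L : ℝ} {Q : Finset ℕ} {R : ℕ → Finset ℕ}
    (h : Adm T z N κ L Q R) {k : ℕ} (d : Fin k → ℕ) (hd : ∀ j, d j ∈ T) :
    ∀ q ∈ Q, z < q ∧ q.Prime ∧ q ^ z ≤ N ∧ (R q).card ≤ κ ∧
      ∀ r ∈ R q, r < q ∧ ∀ j, ¬ q ∣ (fun _ : Fin k => 1) j * r + d j := by
  intro q hq
  obtain ⟨e1, e2, e3, e4, e5⟩ := h.1 q hq
  refine ⟨e2, e1, e3, e4, fun r hr => ⟨(e5 r hr).1, fun j => ?_⟩⟩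
  show ¬ q ∣ 1 * r + d j
  rw [one_mul]
  exact (e5 r hr).2 _ (hd j)

lemma triv_rho (g : ℕ → ℂ) : ∃ ρ : ℂ, ‖ρ‖ = 1 ∧ ∀ m, 1 ≤ m → g (1 / 1 * m) = ρ * g m :=
  ⟨1, by simp, fun m _ => by simp⟩

/-- independence for a product -/
lemma ind_prod (T : Finset ℕ) (k : ℕ) (d : Fin k → ℕ) (hd : ∀ j, d j ∈ T) (κ : ℕ)
    (L ε : ℝ) (hε : 0 < ε) : ∃ z : ℕ, 1 ≤ z ∧ ∃ X₀ : ℕ, ∀ X : ℕ, X₀ ≤ X →
    ∀ g : Fin k → ℕ → ℂ, (∀ j, BM (g j)) → ∀ F : ℕ → ℂ, (∀ n, F n = ∏ j, g j (n + d j)) →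
      LM X (fun N => ∃ Q R, Adm T z N κ L Q R ∧ ∃ Φ : Finset (ℕ × ℕ) → ℂ, (∀ S, ‖Φ S‖ ≤ 1) ∧
        ε + ‖mean N (fun n => Φ (hits Q R n))‖ * ‖mean N F‖ < ‖mean N (fun n => Φ (hits Q R n) * F n)‖) ≤ ε := by
  obtain ⟨z, hz, X₀, h⟩ := eg_f k (fun _ => 1) d 1 le_rfl (fun _ => ⟨le_rfl, dvd_rfl⟩) κ L ε hε
  refine ⟨z, hz, X₀, fun X hX g hg F hF => ?_⟩
  have h1 := h X hX g hg (fun j => triv_rho (g j))
  refine (LM_mono X fun N _ hbad => ?_).trans h1
  intro hI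
  obtain ⟨Q, R, hQ, Φ, hΦ, hlt⟩ := hbad
  have h2 := hI Q R (adm_conv hQ d hd) hQ.2 Φ hΦ
  have e0 : (fun n => ∏ j, g j ((fun _ : Fin k => 1) j * n + d j)) = F := by
    funext n
    simp only [one_mul]
    exact (hF n).symm
  have e1 : (fun n => Φ (hit Q R n) * ∏ j, g j ((fun _ : Fin k => 1) j * n + d j)) =
      fun n => Φ (hit Q R n) * F n := funext fun n => by rw [← congrFun e0 n]
  rw [e1, e0] at h2
  rw [mean_eq, mean_eq, mean_eq] at hlt
  have h3 := norm_add_le (AvN N (fun n => Φ (hit Q R n) * F n) - AvN N (fun n => Φ (hit Q R n)) * AvN N F)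
    (AvN N (fun n => Φ (hit Q R n)) * AvN N F)
  rw [sub_add_cancel, norm_mul (AvN N (fun n => Φ (hit Q R n)))] at h3
  have h5 : ε + ‖AvN N (fun n => Φ (hit Q R n))‖ * ‖AvN N F‖ < ‖AvN N (fun n => Φ (hit Q R n) * F n)‖ := hlt
  linarith

lemma mean_hit_le {N : ℕ} {Φ : Finset (ℕ × ℕ) → ℂ} (hΦ : ∀ S, ‖Φ S‖ ≤ 1) (Q : Finset ℕ) (R : ℕ → Finset ℕ) :
    ‖mean N (fun n => Φ (hits Q R n))‖ ≤ 1 := by
  rw [mean_eq]
  exact norm_AvN_le (fun n => hΦ _) N

/-- the term as a product over `Fin k` -/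
lemma term_eq (k n : ℕ) : term k n = ∏ j : Fin k, lam (n + (j : ℕ)) := by
  unfold term
  rw [prod_range]
  exact prod_congr rfl fun j _ => li_lam _

/-- every length: at most one half -/
lemma half (k : ℕ) (hk : 1 ≤ k) (ε : ℝ) (hε : 0 < ε) : ∃ X₀ : ℕ, ∀ X : ℕ, X₀ ≤ X →
    LM X (fun N => 1 / 2 + ε < ‖mean N (term k)‖) ≤ ε := by
  classical
  obtain ⟨E, hE, hG⟩ := Pool.Agent.Q133.EL.two_pt
  have hG' : Pool.Agent.Q133.EL.Good E := hG
  obtain ⟨N₀, h⟩ := Pool.Agent.Q133.EL.half_bd hG' k 1 0 1 hk le_rfl le_rfl ε hε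
  obtain ⟨X₁, hX₁⟩ := LM_small N₀ (ε / 2) (by positivity)
  have hE' := hE
  unfold Pool.Agent.Y958.U.LZ at hE'
  obtain ⟨X₂, hX₂⟩ := eventually_atTop.1 ((Metric.tendsto_nhds.1 hE') (ε / 2) (by positivity))
  refine ⟨X₁ + X₂ + 2, fun X hX => ?_⟩
  refine (LM_mono X (Q := fun N => N < N₀ ∨ N ∈ E) fun N hN hbad => ?_).trans ((LM_or X _ _).trans ?_)
  · by_contra hcon
    push Not at hcon
    have h1 := h N hcon.1 hcon.2 (fun _ => 1) (fun _ => by simp) (fun _ => rfl)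
    have hN0 : (0 : ℝ) < N := by exact_mod_cast (mem_Icc.1 hN).1
    have e1 : ∑ n ∈ Icc 1 N, term k n =
        ((∑ n ∈ Icc 1 N, 1 * Pool.Agent.Q133.EL.pr (Pool.Agent.Q133.EL.xx 1 0) k n : ℝ) : ℂ) := by
      push_cast
      refine sum_congr rfl fun n _ => ?_
      unfold term Pool.Agent.Q133.EL.pr Pool.Agent.Q133.EL.xx liouville
      push_cast
      rw [one_mul]
      refine prod_congr rfl fun j _ => ?_
      rw [one_mul, add_zero]
    unfold mean at hbad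
    rw [e1, norm_div, Complex.norm_real, Complex.norm_natCast, Real.norm_eq_abs, lt_div_iff₀ hN0] at hbad
    linarith
  · have h1 := hX₁ X (by omega)
    have h2 : LM X (fun N => N ∈ E) ≤ ε / 2 := by
      have h3 := hX₂ X (by omega)
      rw [Real.dist_eq, sub_zero] at h3
      have h4 := (le_abs_self _).trans h3.le
      have hlog : 0 < Real.log X := Real.log_pos (by exact_mod_cast (by omega : 1 < X))
      rw [div_le_iff₀ hlog] at h4
      unfold LM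
      rw [div_le_iff₀ (H_pos (by omega))]
      have h5 := H_ge X (by omega)
      have h6 : ∑ N ∈ Icc 1 X, (if N ∈ E then 1 / (N : ℝ) else 0) ≤ ε / 2 * Real.log X := by
        refine le_trans (le_of_eq ?_) h4
        exact sum_congr rfl fun n _ => by split_ifs <;> rfl
      nlinarith
    linarith

theorem result :
    (∀ (T : Finset ℕ) (κ : ℕ) (L ε : ℝ), 0 < ε → ∃ z : ℕ, 1 ≤ z ∧ ∃ X₀ : ℕ, ∀ X : ℕ, X₀ ≤ X →
      LogProp X (fun N => ∃ Q R, Adm T z N κ L Q R ∧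
        ∃ Φ : Finset (ℕ × ℕ) → (T → ℤ) → ℂ, (∀ S v, ‖Φ S v‖ ≤ 1) ∧
          ε < ‖mean N (fun n => Φ (hits Q R n) (fun t => liouville (n + t))) -
            mean N (fun m => mean N (fun n => Φ (hits Q R m) (fun t => liouville (n + t))))‖) ≤ ε) ∧
    (∀ (b b' κ : ℕ) (L ε : ℝ), b ≠ b' → 0 < ε → ∃ z : ℕ, 1 ≤ z ∧ ∃ X₀ : ℕ,
      ∀ X : ℕ, X₀ ≤ X → ∀ g : ArithmeticFunction ℂ, Mul1 g →
      LogProp X (fun N => ∃ Q R, Adm {b, b'} z N κ L Q R ∧
        ∃ Φ : Finset (ℕ × ℕ) → ℂ, (∀ S, ‖Φ S‖ ≤ 1) ∧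
          ε < ‖mean N (fun n => Φ (hits Q R n) * (liouville (n + b) * g (n + b')))‖) ≤ ε) ∧
    (∀ (k κ : ℕ) (L ε : ℝ), 1 ≤ k → 0 < ε → ∃ z : ℕ, 1 ≤ z ∧ ∃ X₀ : ℕ, ∀ X : ℕ, X₀ ≤ X →
      LogProp X (fun N => ∃ Q R, Adm (range k) z N κ L Q R ∧ ∃ Φ : Finset (ℕ × ℕ) → ℂ, (∀ S, ‖Φ S‖ ≤ 1) ∧
          1 / 2 * ‖mean N (fun n => Φ (hits Q R n))‖ + ε <
            ‖mean N (fun n => Φ (hits Q R n) * term k n)‖) ≤ ε) ∧
    (∀ k : ℕ, 1 ≤ k →
      ((∀ ε : ℝ, 0 < ε → ∃ X₀ : ℕ, ∀ X : ℕ, X₀ ≤ X → LogProp X (fun N => ε < ‖mean N (term k)‖) ≤ ε) ↔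
      ∀ (κ : ℕ) (L ε : ℝ), 0 < ε → ∃ z : ℕ, 1 ≤ z ∧ ∃ X₀ : ℕ, ∀ X : ℕ, X₀ ≤ X →
        LogProp X (fun N => ∃ Q R, Adm (range k) z N κ L Q R ∧ ∃ Φ : Finset (ℕ × ℕ) → ℂ, (∀ S, ‖Φ S‖ ≤ 1) ∧
          ε < ‖mean N (fun n => Φ (hits Q R n) * term k n)‖) ≤ ε)) := by
  classical
  refine ⟨fun T κ L ε hε => ?_, fun b b' κ L ε hb hε => ?_, fun k κ L ε hk hε => ?_,
    fun k hk => ⟨fun hS κ L ε hε => ?_, fun hS ε hε => ?_⟩⟩
  · -- the joint law
    obtain ⟨z, hz, X₀, h⟩ := eg_law T.card (fun _ => 1) (fun j => ((T.equivFin.symm j : T) : ℕ)) 1 le_rfl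
      (fun _ => ⟨le_rfl, dvd_rfl⟩) {1, -1, 0} κ L ε hε
    refine ⟨z, hz, X₀, fun X hX => ?_⟩
    have h1 := h X hX (fun _ => lam) (fun _ => BM_lam) (fun _ n => by
      rw [mem_insert, mem_insert, mem_singleton]
      exact Tern_lam.2 n) (fun j => triv_rho _)
    refine (LM_mono X fun N _ hbad => ?_).trans h1
    intro hI
    obtain ⟨Q, R, hQ, Φ, hΦ, hlt⟩ := hbad
    have h2 := hI Q R (adm_conv hQ _ fun j => (T.equivFin.symm j).2) hQ.2
      (fun S v => Φ S (fun t => round (v (T.equivFin t)).re)) (fun S v => hΦ _ _)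
    have e1 : ∀ n, (fun t : T => round ((fun j => lam ((fun _ : Fin T.card => 1) j * n +
        ((T.equivFin.symm j : T) : ℕ))) (T.equivFin t)).re) = fun t : T => liouville (n + t) := by
      intro n
      funext t
      show round (lam (1 * n + ((T.equivFin.symm (T.equivFin t) : T) : ℕ))).re = _
      rw [Equiv.symm_apply_apply, one_mul, ← li_lam, Complex.intCast_re, round_intCast]
    simp only [e1] at h2
    simp only [mean_eq] at hlt
    exact absurd h2 (not_le.2 hlt)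
  · -- two points
    obtain ⟨z, hz, X₁, h1⟩ := ind_prod {b, b'} 2 ![b, b'] (fun j => by
        fin_cases j
        · simp
        · simp) κ L (ε / 2) (by positivity)
    obtain ⟨X₂, h2⟩ := two_lam b b' hb (ε / 2) (by positivity)
    refine ⟨z, hz, X₁ + X₂, fun X hX g hg => ?_⟩
    have h3 := h1 X (by omega) ![lam, fun n => g n] (fun j => by
        fin_cases j
        · exact BM_lam
        · exact bm hg) (fun n => (liouville (n + b) : ℂ) * g (n + b')) (fun n => by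
        rw [Fin.prod_univ_two, li_lam]
        rfl)
    have h4 := h2 X (by omega) (fun n => g n) (bm hg)
    refine (LM_mono X (Q := fun N => (∃ Q R, Adm {b, b'} z N κ L Q R ∧
        ∃ Φ : Finset (ℕ × ℕ) → ℂ, (∀ S, ‖Φ S‖ ≤ 1) ∧
        ε / 2 + ‖mean N (fun n => Φ (hits Q R n))‖ * ‖mean N (fun n => (liouville (n + b) : ℂ) * g (n + b'))‖ <
          ‖mean N (fun n => Φ (hits Q R n) * ((liouville (n + b) : ℂ) * g (n + b')))‖) ∨
        ε / 2 < ‖AvN N (fun n => lam (n + b) * g (n + b'))‖)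
        fun N _ hbad => ?_).trans ((LM_or X _ _).trans (by linarith))
    by_contra hcon
    push Not at hcon
    obtain ⟨Q, R, hQ, Φ, hΦ, hlt⟩ := hbad
    have e3 := hcon.1 Q R hQ Φ hΦ
    have e4 := hcon.2
    have e5 : (fun n => (liouville (n + b) : ℂ) * g (n + b')) = fun n => lam (n + b) * g (n + b') := by
      funext n
      rw [li_lam]
    rw [← e5, ← mean_eq] at e4
    have e6 := mul_le_of_le_one_left (norm_nonneg (mean N (fun n => (liouville (n + b) : ℂ) * g (n + b'))))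
      (mean_hit_le (N := N) hΦ Q R)
    linarith
  · -- every length
    obtain ⟨z, hz, X₁, h1⟩ := ind_prod (range k) k (fun j => (j : ℕ)) (fun j => mem_range.2 j.2) κ L
      (ε / 2) (by positivity)
    obtain ⟨X₂, h2⟩ := half k hk (ε / 2) (by positivity)
    refine ⟨z, hz, X₁ + X₂, fun X hX => ?_⟩
    have h3 := h1 X (by omega) (fun _ => lam) (fun _ => BM_lam) (term k) (term_eq k)
    have h4 := h2 X (by omega)
    refine (LM_mono X (Q := fun N => (∃ Q R, Adm (range k) z N κ L Q R ∧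
        ∃ Φ : Finset (ℕ × ℕ) → ℂ, (∀ S, ‖Φ S‖ ≤ 1) ∧
        ε / 2 + ‖mean N (fun n => Φ (hits Q R n))‖ * ‖mean N (term k)‖ <
          ‖mean N (fun n => Φ (hits Q R n) * term k n)‖) ∨
        1 / 2 + ε / 2 < ‖mean N (term k)‖)
        fun N _ hbad => ?_).trans ((LM_or X _ _).trans (by linarith))
    by_contra hcon
    push Not at hcon
    obtain ⟨Q, R, hQ, Φ, hΦ, hlt⟩ := hbad
    have e3 := hcon.1 Q R hQ Φ hΦ
    have e4 := hcon.2
    have e5 := mean_hit_le (N := N) hΦ Q R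
    have e6 := norm_nonneg (mean N (fun n => Φ (hits Q R n)))
    nlinarith
  · -- the equivalence
    obtain ⟨z, hz, X₁, h1⟩ := ind_prod (range k) k (fun j => (j : ℕ)) (fun j => mem_range.2 j.2) κ L
      (ε / 2) (by positivity)
    obtain ⟨X₂, h2⟩ := hS (ε / 2) (by positivity)
    refine ⟨z, hz, X₁ + X₂, fun X hX => ?_⟩
    have h3 := h1 X (by omega) (fun _ => lam) (fun _ => BM_lam) (term k) (term_eq k)
    have h4 := h2 X (by omega)
    rw [LogProp_eq] at h4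
    refine (LM_mono X (Q := fun N => (∃ Q R, Adm (range k) z N κ L Q R ∧
        ∃ Φ : Finset (ℕ × ℕ) → ℂ, (∀ S, ‖Φ S‖ ≤ 1) ∧
        ε / 2 + ‖mean N (fun n => Φ (hits Q R n))‖ * ‖mean N (term k)‖ <
          ‖mean N (fun n => Φ (hits Q R n) * term k n)‖) ∨
        ε / 2 < ‖mean N (term k)‖)
        fun N _ hbad => ?_).trans ((LM_or X _ _).trans (by linarith))
    by_contra hcon
    push Not at hcon
    obtain ⟨Q, R, hQ, Φ, hΦ, hlt⟩ := hbad
    have e3 := hcon.1 Q R hQ Φ hΦ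
    have e4 := hcon.2
    have e6 := mul_le_of_le_one_left (norm_nonneg (mean N (term k))) (mean_hit_le (N := N) hΦ Q R)
    linarith
  · obtain ⟨z, hz, X₀, h⟩ := hS 0 0 ε hε
    refine ⟨X₀, fun X hX => (LM_mono X fun N _ hbad => ?_).trans (h X hX)⟩
    refine ⟨∅, fun _ => ∅, ⟨fun q hq => absurd hq (notMem_empty q), by simp⟩, fun _ => 1,
      fun _ => by simp, ?_⟩
    simp only [one_mul]
    exact hbad

end Pool.Agent.Results.MP_a14ce1_nt.AllSiftedSets
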