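import Pool.Agent.Q120.FE.Main
import Pool.Agent.Q177.FE.CHEB
import Pool.Agent.Q177.FE.MIXF
import Pool.Agent.Q24.FE.MCT
import Pool.Agent.Q190.FE.DEPB
import Pool.Agent.Q190.FE.AVGB
import Pool.Agent.Q299.FE.PTAIL
import Pool.Agent.Q299.FE.TRIVF
import Pool.Agent.Q299.FE.SMOOTHF
import Pool.Agent.Q299.FE.DETF
import Pool.Agent.Q299.FE.DENS
import Pool.Agent.Q75.FE.BADF

/-!
# The entropy threshold for Chowla's conjecture

`f` is a random completely multiplicative function with values `1`, `-1` and an ARBITRARY joint law of the signs `f p`: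
`f = lam (A ω)`, `A ω` the set of the primes with `f p = 1`. `relEnt half μ A (pl (i + 1))` is the entropy deficit of the
signs of the primes below `2 ^ (i + 1)` (nats): the relative entropy of their law with respect to independent fair signs;
`dfc μ A i` is this deficit times `i / 2 ^ i`, i.e. relative to the number of these primes. `Fam x` is a family of at most
`exp (x ^ o(1))` pairs of a weight `w`, `|w n| ≤ 1`, and a nonempty set `h` of at most `r` shifts up to `x`, and
`tot w (A ω) h x = ∑_{n ≤ x} w n ∏_{j ∈ h} f (n + j)`.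
-/

set_option autoImplicit false

namespace Pool.Agent.Results.MP_a14ce1_nt.EntropyThresholdForChowla

open Finset MeasureTheory Filter Pool.Agent.Q120.ET Pool.Agent.Q120.GM Pool.Agent.Q120.TT Pool.Agent.Q120.FZ Pool.Agent.Q120.FE
open scoped Topology

theorem jobs : Pool.Agent.Q120.FE.Jobs where
  entg := Pool.Agent.Q111.TT.t_ENTG
  cheb := Pool.Agent.Q177.FE.t_CHEB
  mct := Pool.Agent.Q24.FE.t_MCT
  depb := Pool.Agent.Q190.FE.t_DEPB
  avgb := Pool.Agent.Q190.FE.t_AVGB
  ptail := Q299.FE.t_PTAIL
  badf := Pool.Agent.Q75.FE.t_BADF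
  entf := Pool.Agent.Q75.FE.t_ENTF
  trivf := Q299.FE.t_TRIVF
  smoothf := Q299.FE.t_SMOOTHF
  detf := Q299.FE.t_DETF
  dens := Q299.FE.t_DENS
  mixf := Pool.Agent.Q177.FE.t_MIXF

/-- (1) If the relative deficits tend to `0` in the mean, all correlations of all families vanish in probability, uniformly
over the family. (2) If the sum of the deficits divided by `2 ^ i` converges, they vanish almost surely. (3) For a
nonincreasing bound `δ` of the relative deficits, `δ → 0` is equivalent to (1) for all functions of the class and all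
families, and also to the vanishing in probability of one correlation for all functions of the class. -/
theorem result :
    (∀ (Ω : Type) [MeasurableSpace Ω] (μ : Measure Ω) [IsProbabilityMeasure μ] (A : Ω → Set ℕ), IsRandomSet A →
      ∀ (r : ℕ) (Fam : ℕ → Finset ((ℕ → ℝ) × Finset ℕ)), IsFam r Fam →
        (Tendsto (fun L : ℕ => (∑ i ∈ Icc 1 L, dfc μ A i) / L) atTop (𝓝 0) → Van μ A Fam) ∧
        (Summable (fun i : ℕ => relEnt half μ A (pl (i + 1)) / 2 ^ i) → VanAS μ A Fam)) ∧
    (∀ δ : ℕ → ℝ, (∀ i, 0 ≤ δ i) → Antitone δ →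
      (Tendsto δ atTop (𝓝 0) ↔ AllVan δ) ∧
      ∀ h : Finset ℕ, h.Nonempty → (Tendsto δ atTop (𝓝 0) ↔ OneVan h δ)) := by
  refine ⟨fun Ω _ μ _ A hA r Fam hF => ⟨fun h => van_of_mean jobs hA hF h, fun h => ?_⟩, fun δ h0 hanti => ⟨⟨fun h =>
    allVan_of_tendsto jobs h, fun h => ?_⟩, fun s hs => ⟨fun h => oneVan_of_allVan hs (allVan_of_tendsto jobs h), fun h =>
      tendsto_of_oneVan jobs h0 hanti h⟩⟩⟩
  · refine vanAS_of_summable jobs hA hF (Summable.of_norm_bounded_eventually_nat h ?_)
    filter_upwards [eventually_ge_atTop 1] with i hi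
    have hi0 : (0 : ℝ) < i := by exact_mod_cast hi
    rw [abs_of_nonneg (dfc_nonneg hA i), Real.norm_of_nonneg (div_nonneg (dfc_nonneg hA i) hi0.le)]
    unfold dfc
    refine le_of_eq ?_
    field_simp
  · exact tendsto_of_oneVan jobs h0 hanti (oneVan_of_allVan (h := {0}) (singleton_nonempty _) h)

end Pool.Agent.Results.MP_a14ce1_nt.EntropyThresholdForChowla
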