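import Pool.Agent.Q270.EC.Two

/-!
# Sign patterns of the Liouville function of every length are independent of the medium prime factors
of the neighbouring integers

`part w y n` is the part of `n` composed of the primes `w < p ≤ y`, `Pr N P` the proportion of the `n ≤ N` with
the property `P`, `LogProp X B` the proportion, with the weights `1/N`, of the scales `N ≤ X` with the property `B`.

1. Let `a_1, ..., a_m` be distinct and `b_1, ..., b_k` any places different from all the `a_l` (for instance
   `b = 1, ..., k`, `a = 0, k + 1`). For every `ε > 0` there are `w₀` and `A` such that for `w ≥ w₀` and large `X` all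
   scales `N ≤ X` except for a logarithmic proportion `ε` have the following property: for ALL `y ≤ N^{1/A}`, ALL
   sets `S` of `m`-tuples and ALL sets `E` of sign patterns, with `D = (part w y (n + a_l))_l` and
   `L = (λ(n + b_j))_j`,
   `|Pr(D ∈ S and L ∈ E) - Pr(D ∈ S) Pr(L ∈ E)| ≤ ε`.
   In other words: the complete information on the prime factors in `(w, N^{1/A}]` of any number of
   integers `n + a_l` says nothing about the Liouville function at any number of other places.
2. The two-point case of Chowla's conjecture on all sets, and with all weights, defined by the medium prime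
   factors of any number of other integers: `|(1/N) ∑_{n ≤ N} Φ(D) λ(n + b_1) g(n + b_2)| ≤ ε` for ALL `Φ` bounded by
   one and all `y ≤ N^{1/A}`, for `g = λ` and every other multiplicative `|g| ≤ 1` (uniformly in `g`), at all `N ≤ X` but
   a logarithmic proportion `ε`.

Proof: entropy decrement argument RELATIVE to the factor generated by all the medium prime factors (of
infinite entropy), which removes the condition `p | n` for the dilation by a prime `p ≤ w`; a van der
Corput argument eliminates the values at the places `b_j` and leaves correlations along cubes of functions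
of the medium prime factors, which are known by sieve methods.
-/

set_option autoImplicit false

namespace Pool.Agent.Results.MP_a14ce1_nt.MediumPrimeFactors

open Finset Pool.Agent.Q270.EA Pool.Agent.Q270.EB Pool.Agent.Q270.EC

/-- the part of `n` composed of the primes `w < p ≤ y` -/
noncomputable def part (w y n : ℕ) : ℕ := ∏ p ∈ (Ioc w y).filter Nat.Prime, p ^ n.factorization p

/-- the Liouville function -/
def liouville (n : ℕ) : ℤ := (-1) ^ ArithmeticFunction.cardFactors n

open Classical in
/-- the proportion of the `n ≤ N` with the property `P` -/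
noncomputable def Pr (N : ℕ) (P : ℕ → Prop) : ℝ := (((Icc 1 N).filter P).card : ℝ) / N

open Classical in
/-- the proportion, with the weights `1 / N`, of the scales `N ≤ X` with the property `B` -/
noncomputable def LogProp (X : ℕ) (B : ℕ → Prop) : ℝ :=
  (∑ N ∈ Icc 1 X, if B N then 1 / (N : ℝ) else 0) / ∑ N ∈ Icc 1 X, 1 / (N : ℝ)

theorem result :
    -- 1. patterns of every length
    (∀ (m k : ℕ) (a : Fin m → ℕ) (b : Fin k → ℕ), 1 ≤ m → 1 ≤ k → Function.Injective a →
      (∀ l j, a l ≠ b j) → ∀ ε : ℝ, 0 < ε → ∃ w₀ A : ℕ, 1 ≤ A ∧ ∀ w : ℕ, w₀ ≤ w → ∃ X₀ : ℕ,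
      ∀ X : ℕ, X₀ ≤ X → LogProp X (fun N => ¬ ∀ y : ℕ, y ^ A ≤ N →
        ∀ (S : Set (Fin m → ℕ)) (E : Set (Fin k → ℤ)),
        |Pr N (fun n => (fun l => part w y (n + a l)) ∈ S ∧ (fun j => liouville (n + b j)) ∈ E) -
          Pr N (fun n => (fun l => part w y (n + a l)) ∈ S) *
            Pr N (fun n => (fun j => liouville (n + b j)) ∈ E)| ≤ ε) ≤ ε) ∧
    -- 2. two points
    (∀ (m : ℕ) (a : Fin m → ℕ) (b₁ b₂ : ℕ), 1 ≤ m → Function.Injective a → b₁ ≠ b₂ →
      (∀ l, a l ≠ b₁) → (∀ l, a l ≠ b₂) → ∀ ε : ℝ, 0 < ε → ∃ w₀ A : ℕ, 1 ≤ A ∧ ∀ w : ℕ, w₀ ≤ w →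
      ∃ X₀ : ℕ, ∀ X : ℕ, X₀ ≤ X → ∀ g : ℕ → ℂ, BM g →
        LogProp X (fun N => ¬ ∀ y : ℕ, y ^ A ≤ N → ∀ Φ : (Fin m → ℕ) → ℂ, (∀ d, ‖Φ d‖ ≤ 1) →
          ‖(1 / (N : ℂ)) * ∑ n ∈ Icc 1 N, Φ (fun l => part w y (n + a l)) *
            ((liouville (n + b₁) : ℂ) * g (n + b₂))‖ ≤ ε) ≤ ε) := by
  classical
  have hpart : ∀ w y n, part w y n = Pool.Agent.W208.TL.sm w y n := fun w y n => rfl
  have hlam : ∀ n, ((liouville n : ℤ) : ℂ) = lam n := fun n => by
    unfold liouville lam
    push_cast
    rfl
  have hPr : ∀ (N : ℕ) (P : ℕ → Prop), ((Pr N P : ℝ) : ℂ) = AvN N (fun n => if P n then 1 else 0) := by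
    intro N P
    unfold Pr AvN
    rw [sum_boole]
    push_cast
    ring
  refine ⟨?_, ?_⟩
  · intro m k a b hm hk ha hab ε hε
    obtain ⟨w₀, A, hA, h⟩ := mxpat m k a b hm hk ha hab ε hε
    refine ⟨w₀, A, hA, fun w hw => ?_⟩
    obtain ⟨X₀, hX₀⟩ := h w hw
    refine ⟨X₀, fun X hX => ?_⟩
    have h1 := hX₀ X hX (fun _ => lam) (fun _ _ => 1) (fun _ => Tern_lam) (fun _ =>
      ⟨fun _ => by simp, fun _ => 1, fun _ => 1, fun _ => by simp,
        fun _ => by simp, fun _ _ _ _ _ _ => by simp⟩)
    refine le_trans (LM_mono X fun N _ hN => ?_) h1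
    intro hcon
    apply hN
    intro y hy S E
    obtain ⟨E', hE'⟩ : ∃ E' : Set (Fin k → ℂ), E' = {x | ∃ e ∈ E, x = fun j => ((e j : ℤ) : ℂ)} :=
      ⟨_, rfl⟩
    have hE : ∀ n, (fun j => lam (n + b j)) ∈ E' ↔ (fun j => liouville (n + b j)) ∈ E := by
      intro n
      rw [hE']
      constructor
      · rintro ⟨e, he, hx⟩
        have : (fun j => liouville (n + b j)) = e := by
          funext j
          have h2 := congrFun hx j
          rw [← hlam] at h2
          exact_mod_cast h2
        rw [this]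
        exact he
      · intro he
        exact ⟨_, he, funext fun j => (hlam _).symm⟩
    have h2 := hcon y hy (fun d => if d ∈ S then 1 else 0) E' (fun d => by split_ifs <;> simp)
    have e1 : ((Pr N (fun n => (fun l => part w y (n + a l)) ∈ S ∧ (fun j => liouville (n + b j)) ∈ E) : ℝ) : ℂ) =
        AvN N (fun n => (if (fun l => Pool.Agent.W208.TL.sm w y (n + a l)) ∈ S then (1 : ℂ) else 0) *
            (ind E' (fun j => lam (n + b j)) * ∏ j : Fin k, (1 : ℂ))) := by
      rw [hPr]
      congr 1
      funext n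
      unfold ind
      simp only [hE, hpart, prod_const_one, mul_one]
      by_cases h3 : (fun l => Pool.Agent.W208.TL.sm w y (n + a l)) ∈ S <;>
        by_cases h4 : (fun j => liouville (n + b j)) ∈ E <;> simp [h3, h4]
    have e2 : ((Pr N (fun n => (fun l => part w y (n + a l)) ∈ S) : ℝ) : ℂ) =
        AvN N (fun n => if (fun l => Pool.Agent.W208.TL.sm w y (n + a l)) ∈ S then (1 : ℂ) else 0) := by
      rw [hPr]
      rfl
    have e3 : ((Pr N (fun n => (fun j => liouville (n + b j)) ∈ E) : ℝ) : ℂ) =
        AvN N (fun n => ind E' (fun j => lam (n + b j)) * ∏ j : Fin k, (1 : ℂ)) := by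
      rw [hPr]
      congr 1
      funext n
      unfold ind
      simp only [hE, prod_const_one, mul_one]
    rw [← e1, ← e2, ← e3, ← Complex.ofReal_mul, ← Complex.ofReal_sub, Complex.norm_real,
      Real.norm_eq_abs] at h2
    exact h2
  · intro m a b₁ b₂ hm ha hb h₁ h₂ ε hε
    obtain ⟨w₀, A, hA, h⟩ := mxtwo m a b₁ b₂ hm ha hb h₁ h₂ ε hε
    refine ⟨w₀, A, hA, fun w hw => ?_⟩
    obtain ⟨X₀, hX₀⟩ := h w hw
    refine ⟨X₀, fun X hX g hg => ?_⟩
    refine le_trans (LM_mono X fun N _ hN => ?_) (hX₀ X hX g hg)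
    intro hcon
    apply hN
    intro y hy Φ hΦ
    have h2 := hcon y hy Φ hΦ
    simp only [hlam]
    exact h2

end Pool.Agent.Results.MP_a14ce1_nt.MediumPrimeFactors
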