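import Pool.Agent.Q270.EW.Fin

/-!
# Correlations of odd order along vectors of Beatty sequences

Let `1, α 1, ..., α s` be linearly independent over the rational numbers and let
`x(n) = (n, ⌊α 1 n + β 1⌋, ..., ⌊α s n + β s⌋)`. Let `F 1, ..., F k` be ANY linear forms in `s + 1` variables with
integer coefficients that tend to infinity along `x(n)`; repetitions and linear relations between them are allowed. If
`g_1, ..., g_k` are 1-bounded multiplicative functions for which `g_1(p) ⋯ g_k(p)` is a function of the residue class of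
`p`, for all large primes, and this function is neither `1` at all invertible classes nor `0` at all of them, then the
means of `g_1(F 1(x(n))) ⋯ g_k(F k(x(n)))` over `n ≤ N` are small for all `N` outside a set of small logarithmic
density. This covers an odd number of factors `λ` and `μ`. With the two-point theorem for these vectors it gives the
frequencies of all sign vectors of `λ` at linear forms, for example at three pairwise non-proportional ones.
-/

set_option autoImplicit false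

open Finset Filter Topology
open scoped Classical

namespace Pool.Agent.Results.MP_a14ce1_nt.OddOrderBeattyVectors

/-- the Liouville function -/
noncomputable def lam (n : ℕ) : ℝ := (-1 : ℝ) ^ ArithmeticFunction.cardFactors n

/-- 1-bounded multiplicative functions -/
def Mul1 (g : ℕ → ℂ) : Prop :=
  (∀ n, ‖g n‖ ≤ 1) ∧ g 1 = 1 ∧ ∀ m n : ℕ, Nat.Coprime m n → g (m * n) = g m * g n

/-- the mean of `w` over `1 ≤ n ≤ N` -/
noncomputable def mean (N : ℕ) (w : ℕ → ℂ) : ℂ := (1 / (N : ℂ)) * ∑ n ∈ Icc 1 N, w n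

/-- the sum of `1 / N` over the `1 ≤ N ≤ X` with the property `P` is at most `ε log X` -/
def Rare (ε : ℝ) (X : ℕ) (P : ℕ → Prop) : Prop :=
  ∑ N ∈ (Icc 1 X).filter (fun N => P N), 1 / (N : ℝ) ≤ ε * Real.log X

/-- the indicator of a property -/
noncomputable def ind (P : Prop) : ℂ := if P then 1 else 0

/-- linear forms in `s + 1` variables with integer coefficients -/
abbrev Form (s : ℕ) : Type := ℤ × (Fin s → ℤ)

/-- the value of a form at `(n, ⌊α 1 n + β 1⌋, ..., ⌊α s n + β s⌋)` -/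
noncomputable def val {s : ℕ} (α β : Fin s → ℝ) (c : Form s) (n : ℕ) : ℤ :=
  c.1 * n + ∑ i, c.2 i * ⌊α i * n + β i⌋

/-- the growth rate of a form along the vectors -/
noncomputable def rate {s : ℕ} (α : Fin s → ℝ) (c : Form s) : ℝ := c.1 + ∑ i, c.2 i * α i

/-- the coefficients as rational numbers -/
def rat {s : ℕ} (c : Form s) : ℚ × (Fin s → ℚ) := ((c.1 : ℚ), fun i => (c.2 i : ℚ))

/-- the indicator of a sign vector, expanded -/
theorem ind_expand {r : ℕ} (L η : Fin r → ℝ) (hL : ∀ i, L i = 1 ∨ L i = -1) (hη : ∀ i, η i = 1 ∨ η i = -1) :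
    ind (∀ i, L i = η i) = ∑ I ∈ (univ : Finset (Fin r)).powerset,
      (1 / 2 ^ r : ℂ) * (((∏ i ∈ I, η i : ℝ) : ℂ) * ((∏ i ∈ I, L i : ℝ) : ℂ)) := by
  have h1 : ind (∀ i, L i = η i) = ∏ i, ((1 / 2 : ℂ) * (((η i * L i : ℝ) : ℂ) + 1)) := by
    unfold ind
    split_ifs with h
    · rw [eq_comm]
      refine prod_eq_one fun i _ => ?_
      rw [h i]
      have : η i * η i = 1 := by rcases hη i with h | h <;> rw [h] <;> norm_num
      rw [this]
      push_cast
      norm_num
    · push Not at h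
      obtain ⟨i, hi⟩ := h
      rw [eq_comm]
      refine prod_eq_zero (mem_univ i) ?_
      have : η i * L i = -1 := by
        rcases hη i with h | h <;> rcases hL i with h' | h'
        · exact absurd (h'.trans h.symm) hi
        · rw [h, h']; norm_num
        · rw [h, h']; norm_num
        · exact absurd (h'.trans h.symm) hi
      rw [this]
      push_cast
      norm_num
  rw [h1, prod_mul_distrib, prod_const, card_univ, Fintype.card_fin, prod_add_one, mul_sum]
  refine sum_congr rfl fun I _ => ?_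
  rw [one_div, inv_pow, ← one_div]
  congr 1
  push_cast
  rw [prod_mul_distrib]

theorem lam_pm (n : ℕ) : lam n = 1 ∨ lam n = -1 := neg_one_pow_eq_or ℝ _

theorem mul1_lam : Mul1 (fun n => (lam n : ℂ)) := by
  refine ⟨fun n => ?_, ?_, fun m n _ => ?_⟩
  · rcases lam_pm n with h | h <;> simp [h]
  · simp [lam]
  · by_cases hm : m = 0
    · subst hm
      rcases eq_or_ne n 0 with h | h
      · subst h; simp [lam]
      · have h1 : n = 1 := by
          rename_i h2
          simpa using h2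
        subst h1; simp [lam]
    · by_cases hn : n = 0
      · subst hn
        have h1 : m = 1 := by
          rename_i h2
          simpa using h2
        subst h1; simp [lam]
      · unfold lam
        push_cast
        rw [ArithmeticFunction.cardFactors_mul hm hn, pow_add]

theorem fok_lam : Pool.Agent.Q270.EV.Fok' (fun n => (lam n : ℂ)) := by
  have e : (fun n => (lam n : ℂ)) = fun n => (-1 : ℂ) ^ ArithmeticFunction.cardFactors n := by
    funext n
    unfold lam
    push_cast
    rfl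
  rw [e]
  exact Pool.Agent.Q270.EV.fok'_lam

/-- linear forms as affine forms -/
theorem span_lift {s : ℕ} {κ : Type*} (F : Form s) (G : κ → Form s)
    (h : rat F ∉ Submodule.span ℚ (Set.range fun j => rat (G j))) :
    Pool.Agent.Q270.EV.rt (F.1, F.2, 0) ∉ Submodule.span ℚ (Set.range fun j => Pool.Agent.Q270.EV.rt ((G j).1, (G j).2, 0)) := by
  intro h1
  apply h
  obtain ⟨P, hP⟩ : ∃ P : (ℚ × (Fin s → ℚ) × ℚ) →ₗ[ℚ] (ℚ × (Fin s → ℚ)),
      P = LinearMap.prod (LinearMap.fst ℚ _ _) ((LinearMap.fst ℚ _ _).comp (LinearMap.snd ℚ _ _)) := ⟨_, rfl⟩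
  have h2 := Submodule.mem_map_of_mem (f := P) h1
  rw [Submodule.map_span, ← Set.range_comp] at h2
  have e1 : ∀ F : Form s, P (Pool.Agent.Q270.EV.rt (F.1, F.2, 0)) = rat F := by
    intro F
    rw [hP]
    rfl
  have e2 : (P ∘ fun j => Pool.Agent.Q270.EV.rt ((G j).1, (G j).2, 0)) = fun j => rat (G j) := by
    funext j
    exact e1 (G j)
  rw [e1, e2] at h2
  exact h2

theorem result :
    -- products whose values at the primes depend on the residue class
    (∀ (s k : ℕ) (α β : Fin s → ℝ),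
      LinearIndependent ℚ (Fin.cons 1 α : Fin (s + 1) → ℝ) → ∀ F : Fin k → Form s, (∀ j, 0 < rate α (F j)) →
      ∀ (m : ℕ) (ξ : ZMod m → ℂ), m ≠ 0 → (∃ a, IsUnit a ∧ ξ a ≠ 1) → (∃ a, IsUnit a ∧ ξ a ≠ 0) → ∀ P₀ : ℕ,
      ∀ ε : ℝ, 0 < ε → ∃ X₀ : ℕ, ∀ X : ℕ, X₀ ≤ X → ∀ g : Fin k → ℕ → ℂ, (∀ j, Mul1 (g j)) →
        (∀ p : ℕ, p.Prime → P₀ ≤ p → ∏ j, g j p = ξ p) →
        Rare ε X fun N => ε < ‖mean N fun n => ∏ j, g j (val α β (F j) n).toNat‖) ∧
    -- the sign vectors of the Liouville function at linear forms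
    (∀ (s r : ℕ) (α β : Fin s → ℝ),
      LinearIndependent ℚ (Fin.cons 1 α : Fin (s + 1) → ℝ) → ∀ F : Fin r → Form s, (∀ j, 0 < rate α (F j)) →
      (∀ I : Finset (Fin r), I.Nonempty → Even I.card → ∃ i ∈ I,
        rat (F i) ∉ Submodule.span ℚ (Set.range fun i' : {i' : Fin r // i' ∈ I ∧ i' ≠ i} => rat (F i'))) →
      ∀ ε : ℝ, 0 < ε → ∃ X₀ : ℕ, ∀ X : ℕ, X₀ ≤ X → ∀ η : Fin r → ℝ, (∀ i, η i = 1 ∨ η i = -1) →
        Rare ε X fun N => ε < ‖(mean N fun n => ind (∀ i, lam (val α β (F i) n).toNat = η i)) - 1 / 2 ^ r‖) := by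
  refine ⟨fun s k α β hα F hF m ξ hm h1 h0 P₀ ε hε => ?_, fun s r α β hα F hF hspan ε hε => ?_⟩
  · haveI : NeZero m := ⟨hm⟩
    obtain ⟨X₀, hX₀⟩ := Pool.Agent.Q270.EW.ow_main α β hα F hF m ξ h1 h0 P₀ (ε ^ 2) (by positivity)
    refine ⟨X₀, fun X hX g hg hgc => ?_⟩
    exact Pool.Agent.Q270.EH.rare _ (fun _ => norm_nonneg _) X ε _ hε (hX₀ X hX g hg hgc)
  · -- the mean for a set of forms
    have key : ∀ I : Finset (Fin r), I.Nonempty → ∃ X₀ : ℕ, ∀ X : ℕ, X₀ ≤ X →
        ∑ N ∈ Icc 1 X, (1 / (N : ℝ)) * ‖(1 / (N : ℂ)) * ∑ n ∈ Icc 1 N,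
        ((∏ i ∈ I, lam (val α β (F i) n).toNat : ℝ) : ℂ)‖ ≤ ε ^ 2 * Real.log X := by
      intro I hI
      rcases Nat.even_or_odd I.card with hev | hodd
      · obtain ⟨i, hi, hsp⟩ := hspan I hI hev
        obtain ⟨X₀, hX₀⟩ := Pool.Agent.Q270.EV.ev_main (fun n => (lam n : ℂ)) fok_lam α β hα ((F i).1, (F i).2, 0)
          (fun i' : {i' : Fin r // i' ∈ I ∧ i' ≠ i} => ((F i').1, (F i').2, 0)) (hF i) (fun i' => hF i')
          (span_lift (F i) (fun i' : {i' : Fin r // i' ∈ I ∧ i' ≠ i} => F i') hsp) (ε ^ 2) (by positivity)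
        refine ⟨X₀, fun X hX => ?_⟩
        refine le_trans (le_of_eq (sum_congr rfl fun N _ => ?_)) (hX₀ X hX (fun _ n => (lam n : ℂ)) fun _ => mul1_lam)
        congr 3
        refine sum_congr rfl fun n _ => ?_
        have hv : ∀ j : Fin r, Pool.Agent.Q270.EV.vl α β ((F j).1, (F j).2, 0) n = val α β (F j) n := by
          intro j
          unfold Pool.Agent.Q270.EV.vl val
          rw [add_zero]
        simp only [hv]
        rw [← mul_prod_erase _ _ hi]
        push_cast
        congr 1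
        rw [prod_subtype (I.erase i) (p := fun i' => i' ∈ I ∧ i' ≠ i) (fun i' => by rw [mem_erase, and_comm])]
      · haveI : NeZero (1 : ℕ) := ⟨one_ne_zero⟩
        obtain ⟨X₀, hX₀⟩ := Pool.Agent.Q270.EW.ow_main α β hα (fun i : {i : Fin r // i ∈ I} => F i) (fun i => hF i) 1
          (fun _ => -1) ⟨1, isUnit_one, by norm_num⟩ ⟨1, isUnit_one, by norm_num⟩ 0 (ε ^ 2) (by positivity)
        refine ⟨X₀, fun X hX => ?_⟩
        refine le_trans (le_of_eq (sum_congr rfl fun N _ => ?_)) (hX₀ X hX (fun _ n => (lam n : ℂ)) (fun _ => mul1_lam) ?_)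
        · congr 3
          refine sum_congr rfl fun n _ => ?_
          push_cast
          rw [prod_subtype I (p := fun i' => i' ∈ I) (fun i' => Iff.rfl)]
          rfl
        · intro p hp _
          rw [prod_const, card_univ, Fintype.card_coe]
          have e1 : (lam p : ℂ) = -1 := by
            unfold lam
            rw [ArithmeticFunction.cardFactors_apply_prime hp]
            norm_num
          rw [e1]
          exact hodd.neg_one_pow
    choose! X₁ hX₁ using key
    refine ⟨∑ I : Finset (Fin r), X₁ I, fun X hX η hη => ?_⟩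
    have hXi : ∀ I, X₁ I ≤ X := fun I => le_trans (single_le_sum (f := X₁) (fun _ _ => Nat.zero_le _) (mem_univ I)) hX
    refine Pool.Agent.Q270.EH.rare _ (fun _ => norm_nonneg _) X ε _ hε ?_
    -- the expansion
    have hexp : ∀ N : ℕ, 1 ≤ N → ‖(mean N fun n => ind (∀ i, lam (val α β (F i) n).toNat = η i)) - 1 / 2 ^ r‖ ≤
        ∑ I ∈ (univ : Finset (Fin r)).powerset.erase ∅, (1 / 2 ^ r : ℝ) * ‖(1 / (N : ℂ)) * ∑ n ∈ Icc 1 N,
          ((∏ i ∈ I, lam (val α β (F i) n).toNat : ℝ) : ℂ)‖ := by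
      intro N hN
      have hN0 : (N : ℂ) ≠ 0 := by
        have : N ≠ 0 := by omega
        exact_mod_cast this
      have e3 : (mean N fun n => ind (∀ i, lam (val α β (F i) n).toNat = η i)) =
          ∑ I ∈ (univ : Finset (Fin r)).powerset, (1 / 2 ^ r : ℂ) * ((∏ i ∈ I, η i : ℝ) : ℂ) *
            ((1 / (N : ℂ)) * ∑ n ∈ Icc 1 N, ((∏ i ∈ I, lam (val α β (F i) n).toNat : ℝ) : ℂ)) := by
        unfold mean
        simp_rw [ind_expand (fun i => lam (val α β (F i) _).toNat) η (fun i => lam_pm _) hη]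
        simp_rw [mul_sum]
        rw [sum_comm]
        refine sum_congr rfl fun I _ => sum_congr rfl fun n _ => ?_
        ring
      rw [e3, ← add_sum_erase _ _ (show (∅ : Finset (Fin r)) ∈ (univ : Finset (Fin r)).powerset by simp)]
      have e4 : (1 / 2 ^ r : ℂ) * ((∏ i ∈ (∅ : Finset (Fin r)), η i : ℝ) : ℂ) *
            ((1 / (N : ℂ)) * ∑ n ∈ Icc 1 N, ((∏ i ∈ (∅ : Finset (Fin r)), lam (val α β (F i) n).toNat : ℝ) : ℂ)) = 1 / 2 ^ r := by
        simp only [prod_empty, Complex.ofReal_one, mul_one, sum_const, Nat.card_Icc, Nat.add_sub_cancel, nsmul_eq_mul]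
        field_simp
      rw [e4, add_sub_cancel_left]
      refine norm_sum_le_of_le _ fun I _ => ?_
      rw [norm_mul, norm_mul]
      have h1 : ‖((∏ i ∈ I, η i : ℝ) : ℂ)‖ = 1 := by
        rw [Complex.norm_real, Real.norm_eq_abs, abs_prod]
        refine prod_eq_one fun i _ => ?_
        rcases hη i with h | h <;> rw [h] <;> norm_num
      have h2 : ‖(1 / 2 ^ r : ℂ)‖ = 1 / 2 ^ r := by
        rw [norm_div, norm_pow]
        norm_num
      rw [h1, h2, mul_one]
    calc ∑ N ∈ Icc 1 X, (1 / (N : ℝ)) * ‖(mean N fun n => ind (∀ i, lam (val α β (F i) n).toNat = η i)) - 1 / 2 ^ r‖ ≤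
        ∑ N ∈ Icc 1 X, (1 / (N : ℝ)) * ∑ I ∈ (univ : Finset (Fin r)).powerset.erase ∅, (1 / 2 ^ r : ℝ) *
          ‖(1 / (N : ℂ)) * ∑ n ∈ Icc 1 N, ((∏ i ∈ I, lam (val α β (F i) n).toNat : ℝ) : ℂ)‖ :=
          sum_le_sum fun N hN => mul_le_mul_of_nonneg_left (hexp N (mem_Icc.1 hN).1) (by positivity)
      _ = ∑ I ∈ (univ : Finset (Fin r)).powerset.erase ∅, (1 / 2 ^ r : ℝ) * ∑ N ∈ Icc 1 X, (1 / (N : ℝ)) *
          ‖(1 / (N : ℂ)) * ∑ n ∈ Icc 1 N, ((∏ i ∈ I, lam (val α β (F i) n).toNat : ℝ) : ℂ)‖ := by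
          simp_rw [mul_sum (s := (univ : Finset (Fin r)).powerset.erase ∅)]
          rw [sum_comm]
          refine sum_congr rfl fun I _ => ?_
          rw [mul_sum]
          refine sum_congr rfl fun N _ => ?_
          ring
      _ ≤ ∑ I ∈ (univ : Finset (Fin r)).powerset.erase ∅, (1 / 2 ^ r : ℝ) * (ε ^ 2 * Real.log X) := by
          refine sum_le_sum fun I hI' => mul_le_mul_of_nonneg_left (hX₁ I ?_ X (hXi I)) (by positivity)
          rw [mem_erase] at hI'
          exact nonempty_iff_ne_empty.2 hI'.1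
      _ ≤ ε ^ 2 * Real.log X := by
          rw [sum_const, nsmul_eq_mul, ← mul_assoc]
          have h1 : (((univ : Finset (Fin r)).powerset.erase ∅).card : ℝ) ≤ 2 ^ r := by
            have := card_le_card (erase_subset (∅ : Finset (Fin r)) (univ : Finset (Fin r)).powerset)
            rw [card_powerset, card_univ, Fintype.card_fin] at this
            exact_mod_cast this
          have h2 : (((univ : Finset (Fin r)).powerset.erase ∅).card : ℝ) * (1 / 2 ^ r) ≤ 1 := by
            rw [mul_one_div, div_le_one (by positivity)]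
            exact h1
          have h3 : 0 ≤ ε ^ 2 * Real.log X := mul_nonneg (by positivity) (Real.log_natCast_nonneg X)
          nlinarith

end Pool.Agent.Results.MP_a14ce1_nt.OddOrderBeattyVectors
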